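import Pool.Agent.Y862.SQ.Stm2
import Pool.Agent.Y681.SQ.Small

set_option autoImplicit false

/-!
# The small primes for families of windows (job SQ2-SMALL), adapted from
`Pool/Agent/Y681/SQ/Small.lean`
-/

namespace Pool.Agent.Y448.SQ

open Finset Pool.Agent.Y862.SQ Pool.Agent.Y681.SQ

/-- exact density for a set of indices -/
lemma exactP (H : Finset (ℕ × ℤ)) (w : ℕ) :
    (((range (Mw w)).filter (fun n : ℕ => ∀ p ∈ pr w,
      ¬ ∃ g ∈ H, (p : ℤ) ∣ ((n : ℤ) + g.1) ^ 2 + g.2)).card : ℝ) = Mw w * VP H w := by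
  have h1 := crt (fun (p n : ℕ) => ¬ ∃ g ∈ H, (p : ℤ) ∣ ((n : ℤ) + g.1) ^ 2 + g.2) (pr w)
    (fun p hp => (mem_pr.1 hp).2) (by
    intro p _ n
    apply not_congr
    apply exists_congr
    intro g
    apply and_congr_right
    intro _
    have h0 : ((n % p : ℕ) : ℤ) ≡ (n : ℤ) [ZMOD p] := by
      rw [Int.natCast_mod]
      exact Int.mod_modEq _ _
    have h2 : (((n % p : ℕ) : ℤ) + g.1) ^ 2 + g.2 ≡ ((n : ℤ) + g.1) ^ 2 + g.2 [ZMOD p] :=
      Int.ModEq.add_right _ ((h0.add_right _).pow 2)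
    exact (dvd_iff_dvd_of_dvd_sub h2.dvd).symm)
  have h2 : (((range (Mw w)).filter (fun n : ℕ => ∀ p ∈ pr w,
      ¬ ∃ g ∈ H, (p : ℤ) ∣ ((n : ℤ) + g.1) ^ 2 + g.2)).card : ℝ) =
      ∏ p ∈ pr w, (((range p).filter (fun n : ℕ =>
        ¬ ∃ g ∈ H, (p : ℤ) ∣ ((n : ℤ) + g.1) ^ 2 + g.2)).card : ℝ) := by
    unfold Mw
    exact_mod_cast h1
  rw [h2]
  unfold Mw VP
  rw [Nat.cast_prod, ← Finset.prod_mul_distrib]
  apply Finset.prod_congr rfl
  intro p hp
  have hp0 : (p : ℝ) ≠ 0 := by exact_mod_cast (mem_pr.1 hp).2.ne_zero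
  rw [card_compl (fun n : ℕ => ∃ g ∈ H, (p : ℤ) ∣ ((n : ℤ) + g.1) ^ 2 + g.2) p]
  unfold rP
  field_simp

/-- the good elements of a window -/
lemma card_Wn (w a : ℕ) (c : ℤ) (L n : ℕ) :
    ((Wn a c L).filter (fun g => ∀ p ∈ pr w, ¬ (p : ℤ) ∣ ((n : ℤ) + g.1) ^ 2 + g.2)).card =
      Nj w a c L n := by
  classical
  unfold Wn Nj
  rw [Finset.filter_image, Finset.card_image_of_injective _ (fun x y h => (Prod.mk.inj h).2),
    Finset.filter_filter]

/-- the number of the good integers of an integer window -/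
lemma windowZ (w : ℕ) (m c : ℤ) (hm : 0 ≤ m) (L : ℕ) :
    |((((Ioc c (c + L)).filter (fun s => ∀ p ∈ pr w, ¬ (p : ℤ) ∣ m + s)).card : ℕ) : ℝ) -
      L * V1 w| ≤ Mw w := by
  obtain ⟨b, hb⟩ : ∃ b : ℕ, (b : ℤ) = m + c + Mw w * |c| := by
    refine ⟨(m + c + Mw w * |c|).toNat, Int.toNat_of_nonneg ?_⟩
    have h1 : (1 : ℤ) ≤ Mw w := by exact_mod_cast Mw_pos w
    have h2 : -|c| ≤ c := neg_abs_le c
    have h3 : 0 ≤ |c| := abs_nonneg c
    nlinarith
  have h0 : ((Ioc c (c + L)).filter (fun s => ∀ p ∈ pr w, ¬ (p : ℤ) ∣ m + s)).card =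
      ((Icc 1 L).filter (fun h => ∀ p ∈ pr w, ¬ p ∣ b + h)).card := by
    have key : ∀ h : ℕ, (∀ p ∈ pr w, ¬ p ∣ b + h) ↔ ∀ p ∈ pr w, ¬ (p : ℤ) ∣ m + (c + h) := by
      intro h
      apply forall_congr'
      intro p
      apply forall_congr'
      intro hp
      apply not_congr
      have hd : (p : ℤ) ∣ Mw w * |c| :=
        Dvd.dvd.mul_right (by exact_mod_cast (Finset.dvd_prod_of_mem _ hp : p ∣ Mw w)) _
      have e : ((b + h : ℕ) : ℤ) = m + (c + h) + Mw w * |c| := by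
        push_cast
        rw [hb]
        ring
      rw [← Int.natCast_dvd_natCast, e]
      exact (dvd_add_left hd)
    symm
    apply Finset.card_bij (fun (h : ℕ) _ => c + (h : ℤ))
    · intro h hh
      rw [mem_filter, mem_Icc] at hh
      rw [mem_filter, mem_Ioc]
      exact ⟨⟨by omega, by omega⟩, (key h).1 hh.2⟩
    · intro x _ y _ hxy
      omega
    · intro s hs
      rw [mem_filter, mem_Ioc] at hs
      obtain ⟨h, hh⟩ : ∃ h : ℕ, (h : ℤ) = s - c := ⟨(s - c).toNat, Int.toNat_of_nonneg (by omega)⟩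
      refine ⟨h, ?_, by omega⟩
      rw [mem_filter, mem_Icc]
      refine ⟨⟨by omega, by omega⟩, (key h).2 ?_⟩
      have e : c + (h : ℤ) = s := by omega
      rw [e]
      exact hs.2
  rw [h0]
  exact window w b L

/-- there are few squares -/
lemma card_sq (M : ℕ) (c : ℤ) (L : ℕ) (h1 : -(M : ℤ) ≤ c) :
    ((Ioc c (c + L)).filter (fun s : ℤ => IsSquare (-s))).card ≤ Nat.sqrt M + 1 := by
  rw [← card_range (Nat.sqrt M + 1)]
  apply Finset.card_le_card_of_injOn (fun s : ℤ => Nat.sqrt (-s).toNat)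
  · intro s hs
    rw [Finset.mem_coe, mem_filter, mem_Ioc] at hs
    rw [Finset.mem_coe, mem_range, Nat.lt_succ_iff]
    apply Nat.sqrt_le_sqrt
    omega
  · intro s hs s' hs' h
    rw [Finset.mem_coe, mem_filter, mem_Ioc] at hs hs'
    obtain ⟨t, ht⟩ := hs.2
    obtain ⟨t', ht'⟩ := hs'.2
    have e1 : (-s).toNat = t.natAbs * t.natAbs := by
      rw [ht]
      have : (t * t).toNat = (t * t).natAbs := by
        have := mul_self_nonneg t
        omega
      rw [this, Int.natAbs_mul]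
    have e2 : (-s').toNat = t'.natAbs * t'.natAbs := by
      rw [ht']
      have : (t' * t').toNat = (t' * t').natAbs := by
        have := mul_self_nonneg t'
        omega
      rw [this, Int.natAbs_mul]
    simp only at h
    rw [e1, e2, Nat.sqrt_eq, Nat.sqrt_eq] at h
    have h3 : t * t = t' * t' := by
      rw [← Int.natAbs_mul_self' t, ← Int.natAbs_mul_self' t', h]
    omega

/-- the number of the good elements of a window -/
lemma Nj_est (w M a : ℕ) (c : ℤ) (L n : ℕ) (h1 : -(M : ℤ) ≤ c) :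
    |(Nj w a c L n : ℝ) - L * V1 w| ≤ Mw w + √(M : ℝ) + 1 := by
  classical
  have hw := windowZ w (((n : ℤ) + a) ^ 2) c (by positivity) L
  have hs := card_sq M c L h1
  obtain ⟨A, hA⟩ : ∃ A : Finset ℤ,
      A = (Ioc c (c + L)).filter (fun s => ∀ p ∈ pr w, ¬ (p : ℤ) ∣ ((n : ℤ) + a) ^ 2 + s) :=
    ⟨_, rfl⟩
  obtain ⟨B, hB⟩ : ∃ B : Finset ℤ, B = (Ioc c (c + L)).filter (fun s : ℤ => IsSquare (-s)) :=
    ⟨_, rfl⟩
  have hN : Nj w a c L n = (A.filter (fun s => ¬ IsSquare (-s))).card := by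
    unfold Nj
    rw [hA, Finset.filter_filter]
    congr 1
    ext s
    simp only [mem_filter, mem_Ioc]
    tauto
  have h3 : (A.filter (fun s => ¬ IsSquare (-s))).card + (A.filter (fun s => IsSquare (-s))).card =
      A.card := by
    have := Finset.card_filter_add_card_filter_not (s := A) (fun s : ℤ => IsSquare (-s))
    omega
  have h4 : (A.filter (fun s => IsSquare (-s))).card ≤ B.card := by
    apply card_le_card
    intro s hs
    rw [hA, mem_filter, mem_filter] at hs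
    rw [hB, mem_filter]
    exact ⟨hs.1.1, hs.2⟩
  rw [← hA] at hw
  rw [← hB] at hs
  have h5 : ((A.filter (fun s => ¬ IsSquare (-s))).card : ℝ) +
      ((A.filter (fun s => IsSquare (-s))).card : ℝ) = A.card := by exact_mod_cast h3
  have h6 : ((A.filter (fun s => IsSquare (-s))).card : ℝ) ≤ Nat.sqrt M + 1 := by
    exact_mod_cast h4.trans hs
  have h7 : (Nat.sqrt M : ℝ) ≤ √(M : ℝ) := Real.nat_sqrt_le_real_sqrt
  have h8 : (0 : ℝ) ≤ ((A.filter (fun s => IsSquare (-s))).card : ℝ) := Nat.cast_nonneg _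
  have h9 : (0 : ℝ) ≤ √(M : ℝ) := Real.sqrt_nonneg _
  rw [hN]
  rw [abs_le] at hw ⊢
  constructor <;> linarith [hw.1, hw.2]

lemma Nj_le (w a : ℕ) (c : ℤ) (L n : ℕ) : Nj w a c L n ≤ L := by
  unfold Nj
  refine (card_filter_le _ _).trans ?_
  rw [Int.card_Ioc]
  omega

/-- the difference of two products -/
lemma prod_diff {ι : Type*} (s : Finset ι) (u v : ι → ℝ) (B δ : ℝ) (hB : 0 ≤ B) (hδ : 0 ≤ δ)
    (hu : ∀ i ∈ s, |u i| ≤ B) (hv : ∀ i ∈ s, |v i| ≤ B) (h : ∀ i ∈ s, |u i - v i| ≤ δ) :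
    |∏ i ∈ s, u i - ∏ i ∈ s, v i| * B ≤ s.card * δ * B ^ s.card := by
  classical
  induction s using Finset.induction_on with
  | empty => simp
  | insert a s ha ih =>
    have ih' := ih (fun i hi => hu i (mem_insert_of_mem hi)) (fun i hi => hv i (mem_insert_of_mem hi))
      (fun i hi => h i (mem_insert_of_mem hi))
    have hv' : |∏ i ∈ s, v i| ≤ B ^ s.card := by
      rw [Finset.abs_prod]
      calc ∏ i ∈ s, |v i| ≤ ∏ _i ∈ s, B :=
            Finset.prod_le_prod (fun i _ => abs_nonneg _) fun i hi => hv i (mem_insert_of_mem hi)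
        _ = B ^ s.card := by rw [Finset.prod_const]
    rw [prod_insert ha, prod_insert ha, card_insert_of_notMem ha]
    have e : u a * ∏ i ∈ s, u i - v a * ∏ i ∈ s, v i =
        u a * (∏ i ∈ s, u i - ∏ i ∈ s, v i) + (u a - v a) * ∏ i ∈ s, v i := by ring
    have h1 := hu a (mem_insert_self a s)
    have h2 := h a (mem_insert_self a s)
    calc |u a * ∏ i ∈ s, u i - v a * ∏ i ∈ s, v i| * B ≤
          (|u a| * |∏ i ∈ s, u i - ∏ i ∈ s, v i| + |u a - v a| * |∏ i ∈ s, v i|) * B := by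
            rw [e]
            apply mul_le_mul_of_nonneg_right _ hB
            refine (abs_add_le _ _).trans ?_
            rw [abs_mul, abs_mul]
      _ = |u a| * (|∏ i ∈ s, u i - ∏ i ∈ s, v i| * B) + |u a - v a| * |∏ i ∈ s, v i| * B := by
            ring
      _ ≤ B * (s.card * δ * B ^ s.card) + δ * B ^ s.card * B := by
            apply add_le_add
            · exact mul_le_mul h1 ih' (by positivity) hB
            · apply mul_le_mul_of_nonneg_right _ hB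
              exact mul_le_mul h2 hv' (abs_nonneg _) hδ
      _ = ((s.card + 1 : ℕ) : ℝ) * δ * B ^ (s.card + 1) := by
            push_cast
            ring

lemma choose_prod (N r : ℕ) :
    (N.choose r : ℝ) = (∏ i ∈ range r, ((N : ℝ) - i)) / r.factorial := by
  have h1 : (N.descFactorial r : ℝ) = ∏ i ∈ range r, ((N : ℝ) - i) := by
    induction r with
    | zero => simp
    | succ r ih =>
      rw [Nat.descFactorial_succ, prod_range_succ, ← ih]
      push_cast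
      by_cases h : r ≤ N
      · rw [Nat.cast_sub h]
        ring
      · have h2 : N.descFactorial r = 0 := Nat.descFactorial_eq_zero_iff_lt.2 (by omega)
        rw [h2]
        simp
  have h2 : (r.factorial : ℝ) ≠ 0 := by exact_mod_cast (Nat.factorial_pos r).ne'
  rw [eq_div_iff h2, ← h1, Nat.descFactorial_eq_factorial_mul_choose]
  push_cast
  ring

/-- the average over the families, as an average over a period -/
lemma sum_fam {k : ℕ} (w : ℕ) (a : Fin k → ℕ) (c : Fin k → ℤ) (L r : Fin k → ℕ) :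
    (Mw w : ℝ) * ∑ H ∈ fam a c L r, VP (un H) w =
      ∑ n ∈ range (Mw w), ∏ j, ((Nj w (a j) (c j) (L j) n).choose (r j) : ℝ) := by
  classical
  rw [Finset.mul_sum]
  have h1 : ∀ H ∈ fam a c L r, (Mw w : ℝ) * VP (un H) w =
      ∑ n ∈ range (Mw w), ∏ j, (if (∀ g ∈ H j, ∀ p ∈ pr w,
        ¬ (p : ℤ) ∣ ((n : ℤ) + g.1) ^ 2 + g.2) then (1 : ℝ) else 0) := by
    intro H _
    rw [← exactP (un H) w, Finset.card_filter]
    push_cast
    refine Finset.sum_congr rfl fun n _ => ?_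
    rw [Finset.prod_ite_zero, Finset.prod_const_one]
    congr 1
    apply propext
    unfold un
    constructor
    · intro h j _ g hg p hp hd
      exact h p hp ⟨g, mem_biUnion.2 ⟨j, mem_univ j, hg⟩, hd⟩
    · rintro h p hp ⟨g, hg, hd⟩
      obtain ⟨j, _, hj⟩ := mem_biUnion.1 hg
      exact h j (mem_univ j) g hj p hp hd
  rw [Finset.sum_congr rfl h1, Finset.sum_comm]
  apply Finset.sum_congr rfl
  intro n _
  unfold fam
  rw [← Finset.prod_univ_sum (fun j => powersetCard (r j) (Wn (a j) (c j) (L j)))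
    (fun _ B => if (∀ g ∈ B, ∀ p ∈ pr w, ¬ (p : ℤ) ∣ ((n : ℤ) + g.1) ^ 2 + g.2) then (1 : ℝ)
      else 0)]
  apply Finset.prod_congr rfl
  intro j _
  rw [Finset.sum_ite, Finset.sum_const_zero, add_zero, Finset.sum_const, nsmul_eq_mul, mul_one,
    ← card_Wn, ← Finset.card_powersetCard]
  congr 2
  ext B
  rw [mem_filter, mem_powersetCard, mem_powersetCard]
  constructor
  · rintro ⟨⟨a1, a2⟩, a3⟩
    exact ⟨fun g hg => mem_filter.2 ⟨a1 hg, a3 g hg⟩, a2⟩
  · rintro ⟨a1, a2⟩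
    exact ⟨⟨fun g hg => (mem_filter.1 (a1 hg)).1, a2⟩, fun g hg => (mem_filter.1 (a1 hg)).2⟩

/-- one value of `n` -/
lemma one_term {k : ℕ} (w M R n : ℕ) (hM1 : 1 ≤ M) (hMR : R ≤ M) (a : Fin k → ℕ) (c : Fin k → ℤ)
    (L r : Fin k → ℕ) (hW : Win M a c L) (hr : ∀ j, r j < R) :
    |∏ j, ((Nj w (a j) (c j) (L j) n).choose (r j) : ℝ) -
      ∏ j, ((L j * V1 w) ^ r j / (r j).factorial)| ≤
      (k * R * 3 ^ (k * R)) * (Mw w + √(M : ℝ) + 1 + R) / M * (M : ℝ) ^ (∑ j, r j) := by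
  classical
  have hM0 : (0 : ℝ) < M := by exact_mod_cast hM1
  have hs0 : (0 : ℝ) ≤ √(M : ℝ) := Real.sqrt_nonneg _
  have hMw : (0 : ℝ) < Mw w := by exact_mod_cast Mw_pos w
  have hRr : (R : ℝ) ≤ M := by exact_mod_cast hMR
  have hR0 : (0 : ℝ) ≤ R := Nat.cast_nonneg R
  obtain ⟨δ, hδ⟩ : ∃ δ : ℝ, δ = Mw w + √(M : ℝ) + 1 + R := ⟨_, rfl⟩
  have hδ0 : 0 ≤ δ := by rw [hδ]; positivity
  obtain ⟨S, hS⟩ : ∃ S : Finset (Σ _ : Fin k, ℕ), S = univ.sigma (fun j => range (r j)) :=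
    ⟨_, rfl⟩
  have hScard : S.card = ∑ j, r j := by
    rw [hS, card_sigma]
    simp
  have hF : (0 : ℝ) < ∏ j, ((r j).factorial : ℝ) :=
    Finset.prod_pos fun j _ => by exact_mod_cast Nat.factorial_pos _
  have hF1 : (1 : ℝ) ≤ ∏ j, ((r j).factorial : ℝ) := by
    have : (1 : ℕ) ≤ ∏ j, (r j).factorial :=
      Nat.one_le_iff_ne_zero.2 (Finset.prod_ne_zero_iff.2 fun j _ => (Nat.factorial_pos _).ne')
    exact_mod_cast this
  have e1 : ∏ j, ((Nj w (a j) (c j) (L j) n).choose (r j) : ℝ) =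
      (∏ σ ∈ S, ((Nj w (a σ.1) (c σ.1) (L σ.1) n : ℝ) - σ.2)) / ∏ j, ((r j).factorial : ℝ) := by
    rw [hS, Finset.prod_sigma, ← Finset.prod_div_distrib]
    exact Finset.prod_congr rfl fun j _ => choose_prod _ _
  have e2 : ∏ j, ((L j * V1 w) ^ r j / (r j).factorial : ℝ) =
      (∏ σ ∈ S, ((L σ.1 : ℝ) * V1 w)) / ∏ j, ((r j).factorial : ℝ) := by
    rw [hS, Finset.prod_sigma, ← Finset.prod_div_distrib]
    refine Finset.prod_congr rfl fun j _ => ?_
    simp only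
    rw [Finset.prod_const, card_range]
  have hV0 := V1_pos w
  have hV1 := V1_le_one w
  have hL : ∀ j, (L j : ℝ) ≤ 2 * M := by
    intro j
    obtain ⟨-, h1, h2⟩ := hW.1 j
    have : (L j : ℤ) ≤ 2 * M := by omega
    exact_mod_cast this
  have hkey := prod_diff S (fun σ => (Nj w (a σ.1) (c σ.1) (L σ.1) n : ℝ) - σ.2)
    (fun σ => (L σ.1 : ℝ) * V1 w) (2 * M + R) δ (by positivity) hδ0 ?_ ?_ ?_
  · rw [e1, e2, ← sub_div, abs_div, abs_of_pos hF]
    refine (div_le_self (abs_nonneg _) hF1).trans ?_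
    rw [hScard] at hkey
    obtain ⟨D, hD⟩ : ∃ D : ℝ, D = |∏ σ ∈ S, ((Nj w (a σ.1) (c σ.1) (L σ.1) n : ℝ) - σ.2) -
      ∏ σ ∈ S, ((L σ.1 : ℝ) * V1 w)| := ⟨_, rfl⟩
    rw [← hD] at hkey ⊢
    have hD0 : 0 ≤ D := by rw [hD]; exact abs_nonneg _
    obtain ⟨ρ, hρ⟩ : ∃ ρ : ℕ, ρ = ∑ j, r j := ⟨_, rfl⟩
    rw [← hρ] at hkey ⊢
    have hρk : ρ ≤ k * R := by
      rw [hρ]
      calc ∑ j, r j ≤ ∑ _j : Fin k, R := Finset.sum_le_sum fun j _ => (hr j).le
        _ = k * R := by simp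
    have hρr : (ρ : ℝ) ≤ k * R := by exact_mod_cast hρk
    have h1 : (2 * M + R : ℝ) ^ ρ ≤ 3 ^ (k * R) * (M : ℝ) ^ ρ := by
      calc (2 * M + R : ℝ) ^ ρ ≤ (3 * M) ^ ρ := pow_le_pow_left₀ (by positivity) (by linarith) ρ
        _ = 3 ^ ρ * (M : ℝ) ^ ρ := mul_pow _ _ _
        _ ≤ 3 ^ (k * R) * (M : ℝ) ^ ρ :=
          mul_le_mul_of_nonneg_right (pow_le_pow_right₀ (by norm_num) hρk) (by positivity)
    have h2 : D * M ≤ (k * R) * δ * (3 ^ (k * R) * (M : ℝ) ^ ρ) := by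
      calc D * M ≤ D * (2 * M + R) := mul_le_mul_of_nonneg_left (by linarith) hD0
        _ ≤ ρ * δ * (2 * M + R) ^ ρ := hkey
        _ ≤ (k * R) * δ * (3 ^ (k * R) * (M : ℝ) ^ ρ) := by
          apply mul_le_mul _ h1 (by positivity) (by positivity)
          exact mul_le_mul_of_nonneg_right hρr hδ0
    rw [← hδ]
    have h3 : (k * R * 3 ^ (k * R)) * δ / M * (M : ℝ) ^ ρ =
        ((k * R) * δ * (3 ^ (k * R) * (M : ℝ) ^ ρ)) / M := by ring
    rw [h3, le_div_iff₀ hM0]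
    exact h2
  · rintro ⟨j, i⟩ hi
    rw [hS, mem_sigma, mem_range] at hi
    have h1 : (Nj w (a j) (c j) (L j) n : ℝ) ≤ L j := by exact_mod_cast Nj_le _ _ _ _ _
    have h2 := hL j
    have h3 : (i : ℝ) ≤ R := by exact_mod_cast (hi.2.trans (hr j)).le
    have h4 : (0 : ℝ) ≤ Nj w (a j) (c j) (L j) n := Nat.cast_nonneg _
    have h5 : (0 : ℝ) ≤ i := Nat.cast_nonneg _
    simp only
    rw [abs_le]
    constructor <;> linarith
  · rintro ⟨j, i⟩ hi
    have h2 := hL j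
    have h4 : (0 : ℝ) ≤ L j := Nat.cast_nonneg _
    simp only
    rw [abs_of_nonneg (by positivity)]
    have : (L j : ℝ) * V1 w ≤ L j := mul_le_of_le_one_right h4 hV1
    linarith
  · rintro ⟨j, i⟩ hi
    rw [hS, mem_sigma, mem_range] at hi
    have h1 := Nj_est w M (a j) (c j) (L j) n (hW.1 j).2.1
    have h3 : (i : ℝ) ≤ R := by exact_mod_cast (hi.2.trans (hr j)).le
    have h5 : (0 : ℝ) ≤ i := Nat.cast_nonneg _
    simp only
    rw [hδ]
    rw [abs_le] at h1 ⊢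
    constructor <;> linarith [h1.1, h1.2]

/-- **The small primes for families.** -/
theorem t_SMALLZ : S_SMALLZ := by
  intro k R w η hη
  obtain ⟨C, hC⟩ : ∃ C : ℝ, C = k * R * 3 ^ (k * R) := ⟨_, rfl⟩
  have hC0 : 0 ≤ C := by rw [hC]; positivity
  have hMw : (0 : ℝ) < Mw w := by exact_mod_cast Mw_pos w
  obtain ⟨m1, hm1⟩ : ∃ m : ℕ, 2 * C * (Mw w + 1 + R) / η ≤ m := exists_nat_ge _
  obtain ⟨m2, hm2⟩ : ∃ m : ℕ, (2 * C / η) ^ 2 ≤ m := exists_nat_ge _
  refine ⟨max (max m1 m2) (max R 1), ?_⟩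
  intro M hM a c L r hW hr
  have hM1 : 1 ≤ M := by omega
  have hMR : R ≤ M := by omega
  have hMm1 : (m1 : ℝ) ≤ M := by exact_mod_cast (show m1 ≤ M by omega)
  have hMm2 : (m2 : ℝ) ≤ M := by exact_mod_cast (show m2 ≤ M by omega)
  have hM0 : (0 : ℝ) < M := by exact_mod_cast hM1
  have h1 : 2 * C * (Mw w + 1 + R) ≤ η * M := by
    have := hm1.trans hMm1
    rw [div_le_iff₀ hη] at this
    linarith
  have h2 : 2 * C * √(M : ℝ) ≤ η * M := by
    have h3 : 2 * C / η ≤ √(M : ℝ) := Real.le_sqrt_of_sq_le (hm2.trans hMm2)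
    rw [div_le_iff₀ hη] at h3
    have h4 : √(M : ℝ) * √(M : ℝ) = M := Real.mul_self_sqrt hM0.le
    calc 2 * C * √(M : ℝ) ≤ √(M : ℝ) * η * √(M : ℝ) :=
          mul_le_mul_of_nonneg_right h3 (Real.sqrt_nonneg _)
      _ = η * (√(M : ℝ) * √(M : ℝ)) := by ring
      _ = η * M := by rw [h4]
  have h3 : C * (Mw w + √(M : ℝ) + 1 + R) / M ≤ η := by
    rw [div_le_iff₀ hM0]
    linarith
  have hterm : ∀ n, |∏ j, ((Nj w (a j) (c j) (L j) n).choose (r j) : ℝ) -
      ∏ j, ((L j * V1 w) ^ r j / (r j).factorial)| ≤ η * (M : ℝ) ^ (∑ j, r j) := by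
    intro n
    refine (one_term w M R n hM1 hMR a c L r hW hr).trans ?_
    rw [← hC]
    exact mul_le_mul_of_nonneg_right h3 (by positivity)
  have hsum := sum_fam w a c L r
  obtain ⟨T, hT⟩ : ∃ T : ℝ, T = ∏ j, ((L j * V1 w) ^ r j / (r j).factorial : ℝ) := ⟨_, rfl⟩
  rw [← hT] at hterm ⊢
  have h4 : (Mw w : ℝ) * (∑ H ∈ fam a c L r, VP (un H) w - T) =
      ∑ n ∈ range (Mw w), (∏ j, ((Nj w (a j) (c j) (L j) n).choose (r j) : ℝ) - T) := by
    rw [mul_sub, hsum, Finset.sum_sub_distrib, Finset.sum_const, card_range, nsmul_eq_mul]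
  have h5 : (Mw w : ℝ) * |∑ H ∈ fam a c L r, VP (un H) w - T| ≤
      Mw w * (η * (M : ℝ) ^ (∑ j, r j)) := by
    calc (Mw w : ℝ) * |∑ H ∈ fam a c L r, VP (un H) w - T| =
          |(Mw w : ℝ) * (∑ H ∈ fam a c L r, VP (un H) w - T)| := by
            rw [abs_mul, abs_of_pos hMw]
      _ = |∑ n ∈ range (Mw w), (∏ j, ((Nj w (a j) (c j) (L j) n).choose (r j) : ℝ) - T)| := by
            rw [h4]
      _ ≤ ∑ n ∈ range (Mw w), |∏ j, ((Nj w (a j) (c j) (L j) n).choose (r j) : ℝ) - T| :=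
            Finset.abs_sum_le_sum_abs _ _
      _ ≤ ∑ _n ∈ range (Mw w), (η * (M : ℝ) ^ (∑ j, r j)) :=
            Finset.sum_le_sum fun n _ => hterm n
      _ = Mw w * (η * (M : ℝ) ^ (∑ j, r j)) := by
            rw [Finset.sum_const, card_range, nsmul_eq_mul]
  exact le_of_mul_le_mul_left h5 hMw

end Pool.Agent.Y448.SQ
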